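import Pool.Agent.helper52.HY.Spec
import Pool.Agent.helper54.V3.SpecT

/-!
# A weak (but scale invariant) form of Pick's inequality for univalent self maps of the disc

For all `j : UD → UD` univalent with `j 0 = 0` and `s ≤ ‖j y‖`: `(1 - ‖y‖)^p ≤ C ‖j' 0‖ (1 - ‖j y‖)^p` with an absolute exponent `p` and `C = C(s)`.
-/

set_option autoImplicit false

open Complex Metric Set Filter Topology

open HY (UD T S hd UN RM VV SG Orb fz)

noncomputable section

namespace PW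

/-- growth with some exponent, from the distortion theorem. -/
def GRWp (p : ℕ) : Prop := ∀ G : ℂ → ℂ, DifferentiableOn ℂ G UD → InjOn G UD →
  ∀ z ∈ UD, ‖G z - G 0‖ * (1 - ‖z‖) ^ p ≤ 2 ^ p * ‖deriv G 0‖

theorem grow_aux (hKO3 : V3.KO3_stmt) : ∃ C : ℝ, 1 ≤ C ∧ ∀ G : ℂ → ℂ, DifferentiableOn ℂ G UD → InjOn G UD →
    ∀ (m : ℕ) (x : ℂ), ‖x‖ ≤ 1 - (1 / 2 : ℝ) ^ m →
      ‖deriv G x‖ ≤ C ^ m * ‖deriv G 0‖ ∧ ‖G x - G 0‖ ≤ (2 * C) ^ m * ‖deriv G 0‖ := by
  obtain ⟨C, hC, h⟩ := hKO3 (1 / 4) (by norm_num) (by norm_num)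
  refine ⟨C, hC, ?_⟩
  intro G hd hinj m
  induction m with
  | zero =>
    intro x hx
    have hx0 : x = 0 := by
      have : ‖x‖ ≤ 0 := by simpa using hx
      simpa using this
    subst hx0
    simp
  | succ m ih =>
    intro x hx
    by_cases hcase : ‖x‖ ≤ 1 - (1 / 2 : ℝ) ^ m
    · obtain ⟨h1, h2⟩ := ih x hcase
      have hD : 0 ≤ ‖deriv G 0‖ := norm_nonneg _
      have hCm : C ^ m ≤ C ^ (m + 1) := pow_le_pow_right₀ hC (Nat.le_succ m)
      have hCm2 : (2 * C) ^ m ≤ (2 * C) ^ (m + 1) := pow_le_pow_right₀ (by linarith) (Nat.le_succ m)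
      exact ⟨h1.trans (mul_le_mul_of_nonneg_right hCm hD), h2.trans (mul_le_mul_of_nonneg_right hCm2 hD)⟩
    · push Not at hcase
      set t : ℝ := 1 - (1 / 2 : ℝ) ^ m with ht
      have hpm : (0 : ℝ) < (1 / 2 : ℝ) ^ m := by positivity
      have hpm1 : (1 / 2 : ℝ) ^ m ≤ 1 := pow_le_one₀ (by norm_num) (by norm_num)
      have ht0 : 0 ≤ t := by rw [ht]; linarith
      have hxpos : 0 < ‖x‖ := lt_of_le_of_lt ht0 hcase
      set a : ℂ := ((t / ‖x‖ : ℝ) : ℂ) * x with ha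
      have hna : ‖a‖ = t := by
        rw [ha, norm_mul, Complex.norm_real, Real.norm_of_nonneg (by positivity)]
        field_simp
      have hxa : ‖x - a‖ = ‖x‖ - t := by
        have : x - a = ((1 - t / ‖x‖ : ℝ) : ℂ) * x := by
          rw [ha]; push_cast; ring
        rw [this, norm_mul, Complex.norm_real, Real.norm_of_nonneg]
        · field_simp
        · have : t / ‖x‖ ≤ 1 := (div_le_one hxpos).2 hcase.le
          linarith
      have hpow : (1 / 2 : ℝ) ^ (m + 1) = (1 / 2 : ℝ) ^ m / 2 := by rw [pow_succ]; ring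
      have hxa2 : ‖x - a‖ < (1 - 1 / 4) * (1 / 2 : ℝ) ^ m := by
        rw [hxa]
        have := hx
        rw [hpow] at this
        rw [ht]
        linarith
      have hball : ball a ((1 / 2 : ℝ) ^ m) ⊆ UD := by
        intro w hw
        rw [mem_ball, dist_eq_norm] at hw
        have h1 : ‖w‖ ≤ ‖w - a‖ + ‖a‖ := by
          calc ‖w‖ = ‖(w - a) + a‖ := by ring_nf
            _ ≤ _ := norm_add_le _ _
        show w ∈ ball (0 : ℂ) 1
        rw [mem_ball_zero_iff]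
        rw [hna, ht] at h1
        linarith
      obtain ⟨-, hK⟩ := h G a ((1 / 2 : ℝ) ^ m) hpm (hd.mono hball) (hinj.mono hball)
      have hxball : x ∈ ball a ((1 - 1 / 4) * (1 / 2 : ℝ) ^ m) := by
        rw [mem_ball, dist_eq_norm]; exact hxa2
      obtain ⟨k1, -, k3, -⟩ := hK x hxball
      obtain ⟨i1, i2⟩ := ih a (by rw [hna])
      have hD : 0 ≤ ‖deriv G 0‖ := norm_nonneg _
      have hC0 : 0 ≤ C := by linarith
      constructor
      · calc ‖deriv G x‖ ≤ C * ‖deriv G a‖ := k1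
          _ ≤ C * (C ^ m * ‖deriv G 0‖) := mul_le_mul_of_nonneg_left i1 hC0
          _ = C ^ (m + 1) * ‖deriv G 0‖ := by rw [pow_succ]; ring
      · have hxa1 : ‖x - a‖ ≤ 1 := by
          have : (1 - 1 / 4) * (1 / 2 : ℝ) ^ m ≤ 1 := by
            have := hpm1
            nlinarith
          linarith
        have e1 : ‖G x - G a‖ ≤ C ^ (m + 1) * ‖deriv G 0‖ := by
          calc ‖G x - G a‖ ≤ C * ‖x - a‖ * ‖deriv G a‖ := k3
            _ ≤ C * 1 * (C ^ m * ‖deriv G 0‖) := by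
                apply mul_le_mul (mul_le_mul_of_nonneg_left hxa1 hC0) i1 (norm_nonneg _)
                linarith
            _ = C ^ (m + 1) * ‖deriv G 0‖ := by rw [pow_succ]; ring
        have e2 : ‖G x - G 0‖ ≤ ‖G x - G a‖ + ‖G a - G 0‖ := by
          calc ‖G x - G 0‖ = ‖(G x - G a) + (G a - G 0)‖ := by ring_nf
            _ ≤ _ := norm_add_le _ _
        have hCm : C ^ (m + 1) ≤ C * (2 * C) ^ m := by
          rw [pow_succ, mul_comm]
          apply mul_le_mul_of_nonneg_left _ hC0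
          exact pow_le_pow_left₀ hC0 (by linarith) m
        have hCm' : (2 * C) ^ m ≤ C * (2 * C) ^ m := by
          have : 0 ≤ (2 * C) ^ m := by positivity
          nlinarith
        calc ‖G x - G 0‖ ≤ C ^ (m + 1) * ‖deriv G 0‖ + (2 * C) ^ m * ‖deriv G 0‖ := by linarith
          _ ≤ C * (2 * C) ^ m * ‖deriv G 0‖ + C * (2 * C) ^ m * ‖deriv G 0‖ :=
              add_le_add (mul_le_mul_of_nonneg_right hCm hD) (mul_le_mul_of_nonneg_right hCm' hD)
          _ = (2 * C) ^ (m + 1) * ‖deriv G 0‖ := by rw [pow_succ]; ring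

theorem grow (hKO3 : V3.KO3_stmt) : ∃ p : ℕ, 1 ≤ p ∧ GRWp p := by
  obtain ⟨C, hC, h⟩ := grow_aux hKO3
  obtain ⟨p, hp⟩ := pow_unbounded_of_one_lt (2 * C) (by norm_num : (1 : ℝ) < 2)
  refine ⟨p + 1, by omega, ?_⟩
  intro G hd hinj z hz
  have hz1 : ‖z‖ < 1 := by
    have : z ∈ ball (0 : ℂ) 1 := hz
    simpa using this
  have h1z : 0 < 1 - ‖z‖ := by linarith
  -- the first `m` with `(1/2)^m ≤ 1 - ‖z‖`
  have hex : ∃ m : ℕ, (1 / 2 : ℝ) ^ m ≤ 1 - ‖z‖ := by
    obtain ⟨m, hm⟩ := exists_pow_lt_of_lt_one h1z (by norm_num : (1 / 2 : ℝ) < 1)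
    exact ⟨m, hm.le⟩
  classical
  set m := Nat.find hex with hm
  have hm1 : (1 / 2 : ℝ) ^ m ≤ 1 - ‖z‖ := Nat.find_spec hex
  have hD : 0 ≤ ‖deriv G 0‖ := norm_nonneg _
  obtain ⟨-, hG⟩ := h G hd hinj m z (by linarith)
  have hup : (1 - ‖z‖) ≤ 2 * (1 / 2 : ℝ) ^ m := by
    rcases Nat.eq_zero_or_pos m with h0 | hpos
    · rw [h0]; simp; linarith [norm_nonneg z]
    · have := Nat.find_min hex (m := m - 1) (by omega)
      push Not at this
      have e : (1 / 2 : ℝ) ^ (m - 1) = 2 * (1 / 2 : ℝ) ^ m := by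
        obtain ⟨k, hk⟩ : ∃ k, m = k + 1 := ⟨m - 1, by omega⟩
        rw [hk]; simp only [Nat.add_sub_cancel]; rw [pow_succ]; ring
      linarith
  have hpow : (1 - ‖z‖) ^ (p + 1) ≤ (2 * (1 / 2 : ℝ) ^ m) ^ (p + 1) := pow_le_pow_left₀ h1z.le hup _
  have h2C : (2 * C) ^ m ≤ (2 ^ (p + 1)) ^ m := by
    apply pow_le_pow_left₀ (by linarith)
    have : (2 : ℝ) ^ p ≤ 2 ^ (p + 1) := pow_le_pow_right₀ (by norm_num) (Nat.le_succ p)
    linarith
  calc ‖G z - G 0‖ * (1 - ‖z‖) ^ (p + 1) ≤ ((2 * C) ^ m * ‖deriv G 0‖) * (2 * (1 / 2 : ℝ) ^ m) ^ (p + 1) :=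
        mul_le_mul hG hpow (by positivity) (by positivity)
    _ ≤ ((2 ^ (p + 1)) ^ m * ‖deriv G 0‖) * (2 * (1 / 2 : ℝ) ^ m) ^ (p + 1) := by
        apply mul_le_mul_of_nonneg_right _ (by positivity)
        exact mul_le_mul_of_nonneg_right h2C hD
    _ = 2 ^ (p + 1) * ‖deriv G 0‖ := by
        rw [mul_pow, ← pow_mul, ← pow_mul, mul_comm (p + 1) m]
        have : (2 : ℝ) ^ (m * (p + 1)) * (1 / 2 : ℝ) ^ (m * (p + 1)) = 1 := by
          rw [← mul_pow]; norm_num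
        calc (2 : ℝ) ^ (m * (p + 1)) * ‖deriv G 0‖ * (2 ^ (p + 1) * (1 / 2 : ℝ) ^ (m * (p + 1)))
            = ((2 : ℝ) ^ (m * (p + 1)) * (1 / 2 : ℝ) ^ (m * (p + 1))) * (2 ^ (p + 1) * ‖deriv G 0‖) := by ring
          _ = _ := by rw [this, one_mul]

/-- the maximum principle. -/
theorem maxp (p : ℕ) (hp : 1 ≤ p) (hG : GRWp p) (s : ℝ) (hs : 0 < s) (hs1 : s < 1) (j : ℂ → ℂ) (hj : UN j)
    (hj0 : j 0 = 0) (N : ℕ) (hN : 1 ≤ N) (hNl : (N : ℝ) ^ p * ‖deriv j 0‖ ≤ s * ((1 - s) / 2) ^ p) :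
    ∀ y ∈ UD, s ≤ ‖j y‖ → ‖j y‖ ≤ ‖y‖ ^ N := by
  have hNpos : (0 : ℝ) < N := by exact_mod_cast hN
  -- boundary estimate
  have hbd : ∀ y ∈ UD, ‖j y‖ = s → s ≤ ‖y‖ ^ N := by
    intro y hy hjy
    have hy1 : ‖y‖ < 1 := by
      have : y ∈ ball (0 : ℂ) 1 := hy
      simpa using this
    have h1 := hG j hj.dif hj.inj y hy
    rw [hj0, sub_zero, hjy] at h1
    have h2 : (N * (1 - ‖y‖)) ^ p ≤ (1 - s) ^ p := by
      rw [mul_pow]
      have h3 : (N : ℝ) ^ p * (s * (1 - ‖y‖) ^ p) ≤ N ^ p * (2 ^ p * ‖deriv j 0‖) :=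
        mul_le_mul_of_nonneg_left h1 (by positivity)
      have h4 : (N : ℝ) ^ p * (2 ^ p * ‖deriv j 0‖) ≤ s * (1 - s) ^ p := by
        calc (N : ℝ) ^ p * (2 ^ p * ‖deriv j 0‖) = 2 ^ p * (N ^ p * ‖deriv j 0‖) := by ring
          _ ≤ 2 ^ p * (s * ((1 - s) / 2) ^ p) := mul_le_mul_of_nonneg_left hNl (by positivity)
          _ = s * (1 - s) ^ p := by
              rw [div_pow]; field_simp
      have h5 : s * ((N : ℝ) ^ p * (1 - ‖y‖) ^ p) ≤ s * (1 - s) ^ p := by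
        calc s * ((N : ℝ) ^ p * (1 - ‖y‖) ^ p) = (N : ℝ) ^ p * (s * (1 - ‖y‖) ^ p) := by ring
          _ ≤ _ := h3.trans h4
      exact le_of_mul_le_mul_left h5 hs
    have h6 : N * (1 - ‖y‖) ≤ 1 - s := by
      have hp0 : p ≠ 0 := by omega
      exact (pow_le_pow_iff_left₀ (by nlinarith) (by linarith) hp0).1 h2
    have h7 := one_add_mul_le_pow (a := -(1 - ‖y‖)) (by linarith [norm_nonneg y]) N
    have h8 : 1 + -(1 - ‖y‖) = ‖y‖ := by ring
    rw [h8] at h7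
    linarith
  intro y₀ hy₀ hsy
  have hy₀1 : ‖y₀‖ < 1 := by
    have : y₀ ∈ ball (0 : ℂ) 1 := hy₀
    simpa using this
  rcases eq_or_lt_of_le hsy with heq | hlt
  · rw [← heq]
    exact hbd y₀ hy₀ heq.symm
  -- now the maximum principle on `ball 0 r`
  have hjc : ContinuousOn j UD := hj.dif.continuousOn
  have hy₀ne : y₀ ≠ 0 := by
    intro h
    rw [h, hj0, norm_zero] at hlt
    linarith
  have key : ∀ r : ℝ, ‖y₀‖ < r → r < 1 → ‖j y₀‖ / ‖y₀‖ ^ N ≤ 1 / r ^ N := by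
    intro r hr hr1
    have hr0 : 0 < r := lt_of_le_of_lt (norm_nonneg _) hr
    set U : Set ℂ := {y | ‖y‖ < r ∧ s < ‖j y‖} with hU
    have hballsub : closedBall (0 : ℂ) r ⊆ UD := by
      intro w hw
      rw [mem_closedBall_zero_iff] at hw
      show w ∈ ball (0 : ℂ) 1
      rw [mem_ball_zero_iff]; linarith
    have hUball : U ⊆ ball (0 : ℂ) r := fun w hw => by
      rw [mem_ball_zero_iff]; exact hw.1
    have hUopen : IsOpen U := by
      have h1 : U = ball (0 : ℂ) r ∩ (fun y => ‖j y‖) ⁻¹' Ioi s := by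
        ext w; simp [hU]
      rw [h1]
      have hcont : ContinuousOn (fun y => ‖j y‖) (ball (0 : ℂ) r) :=
        (hjc.mono (ball_subset_closedBall.trans hballsub)).norm
      exact hcont.isOpen_inter_preimage isOpen_ball isOpen_Ioi
    have hUbdd : Bornology.IsBounded U := isBounded_ball.subset hUball
    have hcl : closure U ⊆ {y | ‖y‖ ≤ r ∧ s ≤ ‖j y‖} := by
      have hclosed : IsClosed ({y | ‖y‖ ≤ r ∧ s ≤ ‖j y‖} : Set ℂ) := by
        have h1 : ({y | ‖y‖ ≤ r ∧ s ≤ ‖j y‖} : Set ℂ) = closedBall (0 : ℂ) r ∩ (fun y => ‖j y‖) ⁻¹' Ici s := by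
          ext w; simp
        rw [h1]
        have hcont : ContinuousOn (fun y => ‖j y‖) (closedBall (0 : ℂ) r) := (hjc.mono hballsub).norm
        exact hcont.preimage_isClosed_of_isClosed isClosed_closedBall isClosed_Ici
      apply closure_minimal _ hclosed
      intro w hw
      exact ⟨hw.1.le, hw.2.le⟩
    have hclUD : closure U ⊆ UD := fun w hw => hballsub (by
      rw [mem_closedBall_zero_iff]; exact (hcl hw).1)
    have hne : ∀ w ∈ closure U, w ≠ 0 := by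
      intro w hw h0
      have := (hcl hw).2
      rw [h0, hj0, norm_zero] at this
      linarith
    have hdiff : DifferentiableOn ℂ (fun y => j y / y ^ N) (closure U) := by
      apply DifferentiableOn.div (hj.dif.mono hclUD)
      · exact (differentiable_id.pow N).differentiableOn
      · intro w hw
        exact pow_ne_zero N (hne w hw)
    have hfr : ∀ w ∈ frontier U, ‖(fun y => j y / y ^ N) w‖ ≤ 1 / r ^ N := by
      intro w hw
      have hwcl : w ∈ closure U := frontier_subset_closure hw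
      have hwnot : w ∉ U := by
        intro h
        rw [hUopen.frontier_eq] at hw
        exact hw.2 h
      obtain ⟨hw1, hw2⟩ := hcl hwcl
      have hwUD : w ∈ UD := hclUD hwcl
      have hw0 : w ≠ 0 := hne w hwcl
      have hwpos : 0 < ‖w‖ := norm_pos_iff.2 hw0
      simp only [norm_div, norm_pow]
      by_cases hwr : ‖w‖ < r
      · have hws : ‖j w‖ = s := by
          apply le_antisymm _ hw2
          by_contra h
          push Not at h
          exact hwnot ⟨hwr, h⟩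
        have h1 := hbd w hwUD hws
        rw [hws]
        have h2 : s / ‖w‖ ^ N ≤ 1 := (div_le_one (by positivity)).2 h1
        have h3 : (1 : ℝ) ≤ 1 / r ^ N := by
          rw [le_div_iff₀ (by positivity)]
          have := pow_le_one₀ hr0.le hr1.le (n := N)
          linarith
        linarith
      · have hwr' : ‖w‖ = r := le_antisymm hw1 (not_lt.1 hwr)
        rw [hwr']
        have hjw : ‖j w‖ ≤ 1 := by
          have : j w ∈ ball (0 : ℂ) 1 := hj.map hwUD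
          rw [mem_ball_zero_iff] at this
          exact this.le
        exact div_le_div_of_nonneg_right hjw (by positivity)
    have hmem : y₀ ∈ closure U := subset_closure ⟨hr, hlt⟩
    have := Complex.norm_le_of_forall_mem_frontier_norm_le hUbdd hdiff.diffContOnCl hfr hmem
    simpa only [norm_div, norm_pow] using this
  -- let `r → 1`
  have hlim : ‖j y₀‖ / ‖y₀‖ ^ N ≤ 1 := by
    have ht : Tendsto (fun r : ℝ => 1 / r ^ N) (𝓝[<] 1) (𝓝 (1 / 1 ^ N)) := by
      apply Tendsto.mono_left _ nhdsWithin_le_nhds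
      apply ContinuousAt.tendsto
      apply ContinuousAt.div continuousAt_const (continuousAt_id.pow N)
      simp
    rw [one_pow, div_one] at ht
    apply ge_of_tendsto ht
    have h1 : Ioo ‖y₀‖ 1 ∈ 𝓝[<] (1 : ℝ) := Ioo_mem_nhdsLT hy₀1
    filter_upwards [h1] with r hr
    exact key r hr.1 hr.2
  have hpos : 0 < ‖y₀‖ ^ N := pow_pos (norm_pos_iff.2 hy₀ne) N
  exact (div_le_one hpos).1 hlim

/-- PIW: the weak Pick inequality at the fixed point. -/
def PIW_stmt : Prop := ∃ p : ℕ, 1 ≤ p ∧ ∀ s : ℝ, 0 < s → s < 1 → ∃ C : ℝ, 0 < C ∧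
  ∀ j : ℂ → ℂ, UN j → j 0 = 0 → ∀ y ∈ UD, s ≤ ‖j y‖ →
    (1 - ‖y‖) ^ p ≤ C * ‖deriv j 0‖ * (1 - ‖j y‖) ^ p

theorem PIW (hKO0 : V3.KO0_stmt) (hKO3 : V3.KO3_stmt) : PIW_stmt := by
  obtain ⟨p, hp, hG⟩ := grow hKO3
  refine ⟨p, hp, ?_⟩
  intro s hs hs1
  set c₀ : ℝ := s * ((1 - s) / 2) ^ p with hc₀
  have hc₀pos : 0 < c₀ := by
    have : 0 < (1 - s) / 2 := by linarith
    positivity
  refine ⟨2 ^ p / (c₀ * s ^ p), by positivity, ?_⟩
  intro j hj hj0 y hy hsy
  have hy1 : ‖y‖ < 1 := by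
    have : y ∈ ball (0 : ℂ) 1 := hy
    simpa using this
  have hjy1 : ‖j y‖ < 1 := by
    have : j y ∈ ball (0 : ℂ) 1 := hj.map hy
    simpa using this
  set l : ℝ := ‖deriv j 0‖ with hl
  have hlpos : 0 < l := by
    rw [hl, norm_pos_iff]
    exact hKO0 j UD isOpen_ball hj.dif hj.inj 0 (by simp [UD])
  -- the number `N`
  have hex : ∃ N : ℕ, c₀ < ((N : ℝ) + 1) ^ p * l := by
    obtain ⟨N, hN⟩ := exists_nat_gt (c₀ / l)
    refine ⟨N, ?_⟩
    have h1 : (N : ℝ) + 1 ≤ ((N : ℝ) + 1) ^ p := by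
      apply le_self_pow₀ _ (by omega)
      have : (0 : ℝ) ≤ N := Nat.cast_nonneg N
      linarith
    have h2 : c₀ < N * l := (div_lt_iff₀ hlpos).1 hN
    nlinarith
  classical
  set N := Nat.find hex with hNdef
  have hN1 : c₀ < ((N : ℝ) + 1) ^ p * l := Nat.find_spec hex
  -- key claim: `N' := max N 1`
  have claim : ∃ M : ℕ, 1 ≤ M ∧ ((N : ℝ) + 1) ≤ 2 * M ∧ ‖j y‖ ≤ ‖y‖ ^ M := by
    rcases Nat.eq_zero_or_pos N with h0 | hpos
    · refine ⟨1, le_refl _, ?_, ?_⟩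
      · rw [h0]; norm_num
      · rw [pow_one]
        have := Complex.norm_le_norm_of_mapsTo_ball (f := j) (R := 1) (z := y) ?_ ?_ hj0 ?_
        · exact this
        · exact hj.dif
        · exact hj.map.mono_right ball_subset_closedBall
        · exact hy1
    · refine ⟨N, hpos, ?_, ?_⟩
      · have : (1 : ℝ) ≤ N := by exact_mod_cast hpos
        linarith
      · have hmin := Nat.find_min hex (m := N - 1) (by omega)
        push Not at hmin
        have hcast : (((N - 1 : ℕ) : ℝ) + 1) = N := by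
          have : 1 ≤ N := hpos
          push_cast [Nat.cast_sub this]
          ring
        rw [hcast] at hmin
        exact maxp p hp hG s hs hs1 j hj hj0 N hpos hmin y hy hsy
  obtain ⟨M, hM1, hNM, hM⟩ := claim
  -- `1 - t^M ≥ M s (1 - t)`
  have h1t : 0 ≤ 1 - ‖y‖ := by linarith
  have hgeo : (M : ℝ) * s * (1 - ‖y‖) ≤ 1 - ‖y‖ ^ M := by
    have hsum : (∑ i ∈ Finset.range M, ‖y‖ ^ i) * (‖y‖ - 1) = ‖y‖ ^ M - 1 := geom_sum_mul ‖y‖ M
    have hlow : (M : ℝ) * s ≤ ∑ i ∈ Finset.range M, ‖y‖ ^ i := by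
      calc (M : ℝ) * s = ∑ i ∈ Finset.range M, s := by rw [Finset.sum_const, Finset.card_range, nsmul_eq_mul]
        _ ≤ _ := by
          apply Finset.sum_le_sum
          intro i hi
          have hi' : i ≤ M := (Finset.mem_range.1 hi).le
          calc s ≤ ‖j y‖ := hsy
            _ ≤ ‖y‖ ^ M := hM
            _ ≤ ‖y‖ ^ i := pow_le_pow_of_le_one (norm_nonneg _) hy1.le hi'
    nlinarith
  have hfin : (M : ℝ) * s * (1 - ‖y‖) ≤ 1 - ‖j y‖ := by linarith
  have hpow : ((M : ℝ) * s * (1 - ‖y‖)) ^ p ≤ (1 - ‖j y‖) ^ p :=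
    pow_le_pow_left₀ (by positivity) hfin p
  have hMp : c₀ < (2 * (M : ℝ)) ^ p * l := by
    calc c₀ < ((N : ℝ) + 1) ^ p * l := hN1
      _ ≤ (2 * (M : ℝ)) ^ p * l := by
        apply mul_le_mul_of_nonneg_right _ hlpos.le
        apply pow_le_pow_left₀ _ hNM
        have : (0 : ℝ) ≤ N := Nat.cast_nonneg N
        linarith
  -- conclude
  have hden : 0 < c₀ * s ^ p := by positivity
  have hA : c₀ * s ^ p * (1 - ‖y‖) ^ p ≤ 2 ^ p * l * (1 - ‖j y‖) ^ p := by
    calc c₀ * s ^ p * (1 - ‖y‖) ^ p ≤ ((2 * (M : ℝ)) ^ p * l) * s ^ p * (1 - ‖y‖) ^ p := by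
          apply mul_le_mul_of_nonneg_right _ (by positivity)
          exact mul_le_mul_of_nonneg_right hMp.le (by positivity)
      _ = 2 ^ p * l * ((M : ℝ) * s * (1 - ‖y‖)) ^ p := by
          rw [mul_pow, mul_pow, mul_pow]; ring
      _ ≤ 2 ^ p * l * (1 - ‖j y‖) ^ p := mul_le_mul_of_nonneg_left hpow (by positivity)
  calc (1 - ‖y‖) ^ p = (c₀ * s ^ p * (1 - ‖y‖) ^ p) / (c₀ * s ^ p) := by field_simp
    _ ≤ (2 ^ p * l * (1 - ‖j y‖) ^ p) / (c₀ * s ^ p) := div_le_div_of_nonneg_right hA hden.le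
    _ = 2 ^ p / (c₀ * s ^ p) * l * (1 - ‖j y‖) ^ p := by ring

end PW
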